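import Mathlib

namespace Pool.Agent.Results.MP_e8cc41_co.Bound

open Finset

/-- The graph `Γ(Q_b, V)`. -/
def Gam {K L : Type} [Field K] [Field L] [Algebra K L] (b : L) (V : Submodule K L) :
    SimpleGraph L where
  Adj x y := x ≠ y ∧ x ^ 2 + b * x * y + y ^ 2 ∈ V
  symm := ⟨fun x y h => ⟨h.1.symm, by convert h.2 using 1; ring⟩⟩
  loopless := ⟨fun _ h => h.1 rfl⟩

/-- `V ≠ 0` and no multiple `α V` is a subfield. -/
def Adm {K L : Type} [Field K] [Field L] [Algebra K L] (V : Submodule K L) : Prop :=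
  V ≠ ⊥ ∧ ∀ α : L, ¬ ∃ S : Subfield L, (S : Set L) = (fun v => α * v) '' (V : Set L)

variable {K L : Type} [Field K] [Field L] [Algebra K L] [Finite L]

lemma small {U W : Submodule K L} (h : U < W) : Nat.card U * Nat.card K ≤ Nat.card W := by
  have : Finite K := Finite.of_injective _ (algebraMap K L).injective
  have : Module.Finite K L := Module.Finite.of_finite
  rw [Module.natCard_eq_pow_finrank (K := K) (V := U),
    Module.natCard_eq_pow_finrank (K := K) (V := W), ← pow_succ]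
  exact Nat.pow_le_pow_right Nat.card_pos (Submodule.finrank_lt_finrank_of_lt h)

lemma span_eq {W : Submodule K L} {C : Finset L} (h : ∀ x ∈ C, ∀ y ∈ C, x - y ∈ W)
    (hc : Nat.card W < C.card * Nat.card K) {P : Submodule K L}
    (hP : ∀ x ∈ C, ∀ y ∈ C, x - y ∈ P) : W ≤ P := by
  by_contra hn
  have hlt : W ⊓ P < W := lt_of_le_of_ne inf_le_left fun e => hn (inf_eq_left.1 e)
  have h1 := small hlt
  obtain ⟨c, hcC⟩ : C.Nonempty := by
    rw [← card_pos]; by_contra h0
    have : C.card = 0 := by omega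
    simp [this] at hc
  have h2 : C.card ≤ Nat.card (W ⊓ P : Submodule K L) := by
    rw [← Nat.card_eq_finsetCard]
    refine Nat.card_le_card_of_injective
      (fun x : C => (⟨x.1 - c, h _ x.2 _ hcC, hP _ x.2 _ hcC⟩ : (W ⊓ P : Submodule K L))) ?_
    intro x y e
    exact Subtype.ext (sub_left_injective (congrArg Subtype.val e))
  exact absurd (hc.trans_le ((Nat.mul_le_mul_right _ h2).trans h1)) (lt_irrefl _)

lemma subf {V : Submodule K L} (hV : V ≠ ⊥) {α : L} (hα : α ≠ 0)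
    (h : ∀ u ∈ V, ∀ v ∈ V, α * u * v ∈ V) :
    ∃ S : Subfield L, (S : Set L) = (fun v => α * v) '' (V : Set L) := by
  have surj : ∀ u ∈ V, u ≠ 0 → ∀ w ∈ V, ∃ v ∈ V, α * u * v = w := by
    intro u hu hu0 w hw
    obtain ⟨v, hv⟩ := Finite.surjective_of_injective
      (f := fun v : V => (⟨α * u * v, h u hu v v.2⟩ : V))
      (fun x y e => Subtype.ext (mul_left_cancel₀ (mul_ne_zero hα hu0) (congrArg Subtype.val e)))
      ⟨w, hw⟩
    exact ⟨v, v.2, congrArg Subtype.val hv⟩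
  obtain ⟨u, hu, hu0⟩ := Submodule.exists_mem_ne_zero_of_ne_bot hV
  obtain ⟨e, he, he'⟩ := surj u hu hu0 u hu
  have h1 : α * e = 1 := mul_right_cancel₀ hu0 (by linear_combination he')
  refine ⟨{ carrier := (fun v => α * v) '' (V : Set L)
            mul_mem' := ?_, one_mem' := ⟨e, he, h1⟩, add_mem' := ?_
            zero_mem' := ⟨0, V.zero_mem, mul_zero _⟩, neg_mem' := ?_, inv_mem' := ?_ }, rfl⟩
  · rintro _ _ ⟨x, hx, rfl⟩ ⟨y, hy, rfl⟩
    exact ⟨_, h x hx y hy, by ring⟩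
  · rintro _ _ ⟨x, hx, rfl⟩ ⟨y, hy, rfl⟩
    exact ⟨_, V.add_mem hx hy, by ring⟩
  · rintro _ ⟨x, hx, rfl⟩
    exact ⟨_, V.neg_mem hx, by ring⟩
  · rintro _ ⟨x, hx, rfl⟩
    by_cases x0 : x = 0
    · exact ⟨0, V.zero_mem, by simp [x0]⟩
    obtain ⟨v, hv, hv'⟩ := surj x hx x0 e he
    refine ⟨v, hv, eq_inv_of_mul_eq_one_left ?_⟩
    simp only
    linear_combination α * hv' + h1

lemma main (b : L) (hb : b ≠ 0) (V : Submodule K L) (hV : Adm V) (C : Finset L)
    (hC : (Gam b V).IsClique C) : C.card * Nat.card K ≤ Nat.card V + 4 * Nat.card K := by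
  classical
  by_contra hlt
  have four : ∀ x ∈ C, ∀ w ∈ C, ∀ y ∈ C, ∀ z ∈ C, x ≠ y → x ≠ z → w ≠ y → w ≠ z →
      b * (x - w) * (y - z) ∈ V := by
    intro x hx w hw y hy z hz h1 h2 h3 h4
    convert V.add_mem (V.sub_mem (V.sub_mem (hC hx hy h1).2 (hC hx hz h2).2) (hC hw hy h3).2)
      (hC hw hz h4).2 using 1
    ring
  have h2 : 1 < C.card := by
    by_contra h
    have : C.card * Nat.card K ≤ 4 * Nat.card K := Nat.mul_le_mul_right _ (by omega)
    omega
  obtain ⟨x0, hx0, w0, hw0, hne⟩ := one_lt_card.1 h2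
  have hd : b * (x0 - w0) ≠ 0 := mul_ne_zero hb (sub_ne_zero.2 hne)
  let W : Submodule K L := V.comap (LinearMap.mulLeft K (b * (x0 - w0)))
  have hW : Nat.card W = Nat.card V := by
    refine Nat.card_congr ⟨fun x => ⟨b * (x0 - w0) * x.1, x.2⟩,
      fun v => ⟨(b * (x0 - w0))⁻¹ * v.1, ?_⟩, fun x => Subtype.ext ?_, fun x => Subtype.ext ?_⟩
    · rw [Submodule.mem_comap, LinearMap.mulLeft_apply, mul_inv_cancel_left₀ hd]; exact v.2
    · exact inv_mul_cancel_left₀ hd _
    · exact mul_inv_cancel_left₀ hd _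
  have big : ∀ y z : L, Nat.card W < (C \ {x0, w0, y, z}).card * Nat.card K := by
    intro y z
    have h1 := le_card_sdiff {x0, w0, y, z} C
    have h3 : ({x0, w0, y, z} : Finset L).card ≤ 4 := card_le_four
    have h4 : (C.card - 4) * Nat.card K ≤ (C \ {x0, w0, y, z}).card * Nat.card K :=
      Nat.mul_le_mul_right _ (by omega)
    rw [Nat.sub_mul] at h4
    omega
  have inW : ∀ y z, ∀ x ∈ C \ {x0, w0, y, z}, ∀ w ∈ C \ {x0, w0, y, z}, x - w ∈ W := by
    intro y z x hx w hw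
    simp only [mem_sdiff, mem_insert, mem_singleton, not_or] at hx hw
    exact four x0 hx0 w0 hw0 x hx.1 w hw.1 (Ne.symm hx.2.1) (Ne.symm hw.2.1) (Ne.symm hx.2.2.1)
      (Ne.symm hw.2.2.1)
  have s1 : ∀ y ∈ C, ∀ z ∈ C, W ≤ V.comap (LinearMap.mulLeft K (b * (y - z))) := by
    intro y hy z hz
    refine span_eq (inW y z) (big y z) fun x hx w hw => ?_
    simp only [mem_sdiff, mem_insert, mem_singleton, not_or] at hx hw
    exact four y hy z hz x hx.1 w hw.1 (Ne.symm hx.2.2.2.1) (Ne.symm hw.2.2.2.1)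
      (Ne.symm hx.2.2.2.2) (Ne.symm hw.2.2.2.2)
  have s2 : ∀ u ∈ W, W ≤ V.comap (LinearMap.mulLeft K (b * u)) := by
    intro u hu
    refine span_eq (inW x0 x0) (big x0 x0) fun y hy z hz => ?_
    have := s1 y (mem_sdiff.1 hy).1 z (mem_sdiff.1 hz).1 hu
    simp only [Submodule.mem_comap, LinearMap.mulLeft_apply] at this ⊢
    convert this using 1; ring
  refine hV.2 (b * (b * (x0 - w0))⁻¹ * (b * (x0 - w0))⁻¹) (subf hV.1
    (mul_ne_zero (mul_ne_zero hb (inv_ne_zero hd)) (inv_ne_zero hd)) fun u hu v hv => ?_)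
  have m : ∀ v ∈ V, (b * (x0 - w0))⁻¹ * v ∈ W := fun v hv => by
    rwa [Submodule.mem_comap, LinearMap.mulLeft_apply, mul_inv_cancel_left₀ hd]
  have := s2 _ (m u hu) (m v hv)
  simp only [Submodule.mem_comap, LinearMap.mulLeft_apply] at this
  convert this using 1; ring

theorem result (K L : Type) [Field K] [Field L] [Algebra K L] [Finite L] (b : L) (hb : b ≠ 0)
    (V : Submodule K L) (hV : Adm V) :
    ((Gam b V).cliqueNum : ℝ) ≤ (Nat.card V : ℝ) / Nat.card K + 4 ∧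
      ((Gam b V).cliqueNum : ℝ) / Nat.card V ≤ 5 / Nat.card K := by
  have : Finite K := Finite.of_injective _ (algebraMap K L).injective
  obtain ⟨C, hC⟩ := (Gam b V).exists_isNClique_cliqueNum
  have h := main b hb V hV C hC.1
  rw [hC.2] at h
  have h1 := small (bot_lt_iff_ne_bot.2 hV.1)
  rw [Nat.card_unique, one_mul] at h1
  have hq : (0 : ℝ) < Nat.card K := by exact_mod_cast Nat.card_pos
  have hv : (0 : ℝ) < Nat.card V := by exact_mod_cast Nat.card_pos
  have h' : ((Gam b V).cliqueNum : ℝ) * Nat.card K ≤ Nat.card V + 4 * Nat.card K := by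
    exact_mod_cast h
  have h1' : (Nat.card K : ℝ) ≤ Nat.card V := by exact_mod_cast h1
  constructor
  · rw [div_add' _ _ _ hq.ne', le_div_iff₀ hq]; exact h'
  · rw [div_le_div_iff₀ hv hq]; linarith

end Pool.Agent.Results.MP_e8cc41_co.Bound
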